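import Pool.Agent.H987.Z.StB
import Pool.Graph.R_pool_sql_team_seeded_1acbe0a2.Y662.TR.Sheet

/-! B3: the weighted Cauchy-Schwarz inequality for resolvents of real symmetric operators. -/

set_option autoImplicit false
set_option linter.unusedSectionVars false

open scoped BigOperators InnerProductSpace Topology
open Filter MeasureTheory

namespace Pool.Agent.H628.Z987

open Pool.Agent.Y662.TR (LL Cf Mw dv hu ll_summable ll_inner dv_apply dv_self dv_ne cs_tsum t2_im)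
open Pool.Agent.TH369.AN (Rz)
open Pool.Agent.H987.Z

variable {ι : Type} {T : LL ι →L[ℂ] LL ι}

theorem smul_sum (u v : LL ι) : Summable fun x => u x * v x := by
  refine Summable.of_norm_bounded ((ll_summable u).add (ll_summable v)) fun x => ?_
  rw [norm_mul]
  nlinarith [sq_nonneg (‖u x‖ - ‖v x‖), sq_nonneg ‖u x‖, sq_nonneg ‖v x‖]

theorem sum_dv_mul (u : LL ι) (a : ι) : ∑' x, u x * dv a x = u a := by
  rw [tsum_eq_single a]
  · rw [dv_self, mul_one]
  · intro x hx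
    rw [dv_ne hx, mul_zero]

theorem summ_q (q : ι → ℂ) (C : ℝ) (hq : ∀ x, ‖q x‖ ≤ C) (u v : LL ι) :
    Summable fun x => u x * q x * v x := by
  have h : Summable fun x => ‖u x * v x‖ := (smul_sum u v).norm
  refine Summable.of_norm_bounded (h.mul_left C) fun x => ?_
  rw [norm_mul, norm_mul, norm_mul]
  have h1 := hq x
  calc ‖u x‖ * ‖q x‖ * ‖v x‖ = ‖q x‖ * (‖u x‖ * ‖v x‖) := by ring
    _ ≤ C * (‖u x‖ * ‖v x‖) := by gcongr

/-- the energy identity -/
theorem energy (hT : Rs T) (z : ℂ) (q : ι → ℂ) (χ f : LL ι)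
    (heq : ∀ x, T χ x - (z + q x) * χ x = f x) :
    ∑' x, (z.im + (q x).im) * ‖χ x‖ ^ 2 = -(∑' x, (starRingEnd ℂ) (χ x) * f x).im := by
  have s1 := (ll_inner χ (T χ)).summable
  have s3 := (ll_inner χ f).summable
  have h1 : ∀ x, (z.im + (q x).im) * ‖χ x‖ ^ 2 =
      -((starRingEnd ℂ) (χ x) * f x).im + ((starRingEnd ℂ) (χ x) * T χ x).im := by
    intro x
    rw [← heq x]
    have h2 : (starRingEnd ℂ) (χ x) * (T χ x - (z + q x) * χ x) =
        ((starRingEnd ℂ) (χ x) * T χ x) - (z + q x) * ((‖χ x‖ ^ 2 : ℝ) : ℂ) := by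
      rw [← Complex.normSq_eq_norm_sq, ← Complex.mul_conj]
      ring
    rw [h2, Complex.sub_im, Complex.im_mul_ofReal]
    simp only [Complex.add_im]
    ring
  have h3 : (∑' x, (starRingEnd ℂ) (χ x) * T χ x).im = 0 := by
    rw [(ll_inner χ (T χ)).tsum_eq]
    have h4 : (starRingEnd ℂ) ⟪χ, T χ⟫_ℂ = ⟪χ, T χ⟫_ℂ := by
      rw [inner_conj_symm]
      have h5 := hT.sa.isSymmetric χ χ
      exact h5
    exact Complex.conj_eq_iff_im.mp h4
  have s4 : Summable fun x => ((starRingEnd ℂ) (χ x) * f x).im :=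
    (Complex.hasSum_im s3.hasSum).summable
  have s5 : Summable fun x => ((starRingEnd ℂ) (χ x) * T χ x).im :=
    (Complex.hasSum_im s1.hasSum).summable
  rw [tsum_congr h1, Summable.tsum_add s4.neg s5, tsum_neg, ← Complex.im_tsum s3,
    ← Complex.im_tsum s1, h3, add_zero]

/-- the energy identity for the Green function -/
theorem energy_dv (hT : Rs T) (z : ℂ) (q : ι → ℂ) (χ : LL ι) (o : ι)
    (heq : ∀ x, T χ x - (z + q x) * χ x = dv o x) :
    ∑' x, (z.im + (q x).im) * ‖χ x‖ ^ 2 = (χ o).im := by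
  rw [energy hT z q χ (dv o) heq]
  have h : ∑' x, (starRingEnd ℂ) (χ x) * dv o x = (starRingEnd ℂ) (χ o) := by
    rw [tsum_eq_single o]
    · rw [dv_self, mul_one]
    · intro x hx
      rw [dv_ne hx, mul_zero]
  rw [h, Complex.conj_im, neg_neg]

/-- the Green function does not vanish -/
theorem ne_zero_of (z : ℂ) (q : ι → ℂ) (χ : LL ι) (o : ι)
    (heq : ∀ x, T χ x - (z + q x) * χ x = dv o x) : ∃ x, χ x ≠ 0 := by
  by_contra hcon
  push Not at hcon
  have h0 : χ = 0 := Pool.Agent.Y662.TR.ll_ext (fun x => hcon x)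
  have h2 := heq o
  rw [hcon o, h0, map_zero, dv_self] at h2
  have h3 : (0 : LL ι) o = 0 := rfl
  rw [h3] at h2
  simp at h2

theorem pos_of (hT : Rs T) (z : ℂ) (q : ι → ℂ) (C : ℝ) (hC : ∀ x, ‖q x‖ ≤ C)
    (hq : ∀ x, 0 ≤ (q x).im) (hz : 0 < z.im) (χ : LL ι) (o : ι)
    (heq : ∀ x, T χ x - (z + q x) * χ x = dv o x) : 0 < (χ o).im := by
  rw [← energy_dv hT z q χ o heq]
  obtain ⟨x0, hx0⟩ := ne_zero_of z q χ o heq
  have s4 : Summable fun x => (z.im + (q x).im) * ‖χ x‖ ^ 2 := by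
    refine Summable.of_nonneg_of_le (fun x => ?_) (fun x => ?_)
      ((ll_summable χ).mul_left (z.im + C))
    · have := hq x
      positivity
    · have := (Complex.im_le_norm (q x)).trans (hC x)
      gcongr
  refine s4.tsum_pos (fun x => ?_) x0 ?_
  · have := hq x
    positivity
  · have := hq x0
    have := norm_pos_iff.2 hx0
    positivity

theorem star : S_star := by
  intro ι T hT z m t C c s o φ ψ hz hm ht hc hsC hsc hφ hψ
  have hs0 : ∀ x, 0 < (s x).im := fun x => hc.trans_le (hsc x)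
  have hle : ∀ x, (s x).im ≤ C := fun x => (Complex.im_le_norm _).trans (hsC x)
  have hC0 : 0 ≤ C := (norm_nonneg _).trans (hsC o)
  have hqn : ∀ x, ‖(t : ℂ) ^ 2 * s x‖ ≤ t ^ 2 * C := by
    intro x
    rw [norm_mul, norm_pow, Complex.norm_real, Real.norm_eq_abs, sq_abs]
    have := hsC x
    gcongr
  have hqm : ∀ x : ι, ‖(t : ℂ) ^ 2 * m‖ ≤ t ^ 2 * ‖m‖ := by
    intro x
    rw [norm_mul, norm_pow, Complex.norm_real, Real.norm_eq_abs, sq_abs]
  have pφ : 0 < (φ o).im := pos_of hT z (fun x => (t : ℂ) ^ 2 * s x) (t ^ 2 * C) hqn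
    (fun x => by
      rw [t2_im]
      have := hs0 x
      positivity) hz φ o hφ
  have pψ : 0 < (ψ o).im := pos_of hT z (fun _ => (t : ℂ) ^ 2 * m) (t ^ 2 * ‖m‖) hqm
    (fun x => by
      rw [t2_im]
      positivity) hz ψ o hψ
  have eφ := energy_dv hT z (fun x => (t : ℂ) ^ 2 * s x) φ o hφ
  have eψ := energy_dv hT z (fun _ => (t : ℂ) ^ 2 * m) ψ o hψ
  simp only [t2_im] at eφ eψ
  have sψ := ll_summable ψ
  have sφ := ll_summable φ
  have S1 : Summable fun x => t ^ 2 * m.im * ‖ψ x‖ ^ 2 / (ψ o).im := by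
    refine (sψ.mul_left (t ^ 2 * m.im / (ψ o).im)).congr fun x => ?_
    ring
  refine ⟨pφ, pψ, S1, ?_, ?_⟩
  · rw [tsum_mul_left] at eψ
    have e1 : ∑' x, t ^ 2 * m.im * ‖ψ x‖ ^ 2 / (ψ o).im =
        (t ^ 2 * m.im * ∑' x, ‖ψ x‖ ^ 2) / (ψ o).im := by
      rw [tsum_div_const, tsum_mul_left]
    rw [e1, div_le_one pψ, ← eψ]
    have h0 : 0 ≤ ∑' x, ‖ψ x‖ ^ 2 := tsum_nonneg fun x => by positivity
    gcongr
    linarith
  · -- the difference
    have sd : ∀ x, ‖(t : ℂ) ^ 2 * s x - (t : ℂ) ^ 2 * m‖ ≤ t ^ 2 * (C + ‖m‖) := by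
      intro x
      rw [← mul_sub, norm_mul, norm_pow, Complex.norm_real, Real.norm_eq_abs, sq_abs]
      have h1 : ‖s x - m‖ ≤ C + ‖m‖ := (norm_sub_le _ _).trans (by have := hsC x; linarith)
      gcongr
    have hdiff : φ o - ψ o = ∑' x, ψ x * ((t : ℂ) ^ 2 * s x - (t : ℂ) ^ 2 * m) * φ x := by
      have hb := hT.bil φ ψ
      have k1 := smul_sum (T φ) ψ
      have k2 := smul_sum φ (T ψ)
      have k3 := smul_sum φ (dv o)
      have k4 := smul_sum ψ (dv o)
      have h3 : ∀ x, ψ x * ((t : ℂ) ^ 2 * s x - (t : ℂ) ^ 2 * m) * φ x =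
          (φ x * dv o x - ψ x * dv o x) + (T φ x * ψ x - φ x * T ψ x) := by
        intro x
        have e1 := hφ x
        have e2 := hψ x
        linear_combination (φ x) * e2 - (ψ x) * e1
      rw [tsum_congr h3, Summable.tsum_add (k3.sub k4) (k1.sub k2), k3.tsum_sub k4,
        k1.tsum_sub k2, hb, sub_self, add_zero, sum_dv_mul, sum_dv_mul]
    -- Cauchy-Schwarz
    have hN : Summable fun x => t ^ 2 * ‖ψ x‖ ^ 2 * (‖s x - m‖ ^ 2 / (s x).im) := by
      refine Summable.of_nonneg_of_le (fun x => ?_) (fun x => ?_)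
        (sψ.mul_left (t ^ 2 * ((C + ‖m‖) ^ 2 / c)))
      · have := hs0 x
        positivity
      · have h1 : ‖s x - m‖ ≤ C + ‖m‖ := (norm_sub_le _ _).trans (by have := hsC x; linarith)
        have h2 := hsc x
        calc t ^ 2 * ‖ψ x‖ ^ 2 * (‖s x - m‖ ^ 2 / (s x).im) ≤
              t ^ 2 * ‖ψ x‖ ^ 2 * ((C + ‖m‖) ^ 2 / c) := by gcongr
          _ = _ := by ring
    have e0 : ∀ x, ‖ψ x * ((t : ℂ) ^ 2 * s x - (t : ℂ) ^ 2 * m) * φ x‖ =
        (t * ‖ψ x‖ * (‖s x - m‖ / Real.sqrt (s x).im)) * (t * Real.sqrt (s x).im * ‖φ x‖) := by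
      intro x
      rw [← mul_sub, norm_mul, norm_mul, norm_mul, norm_pow, Complex.norm_real,
        Real.norm_of_nonneg ht.le]
      have : Real.sqrt (s x).im ≠ 0 := (Real.sqrt_pos.2 (hs0 x)).ne'
      field_simp
    have e1 : ∀ x, (t * ‖ψ x‖ * (‖s x - m‖ / Real.sqrt (s x).im)) ^ 2 =
        t ^ 2 * ‖ψ x‖ ^ 2 * (‖s x - m‖ ^ 2 / (s x).im) := by
      intro x
      rw [mul_pow, mul_pow, div_pow, Real.sq_sqrt (hs0 x).le]
    have e2 : ∀ x, (t * Real.sqrt (s x).im * ‖φ x‖) ^ 2 = t ^ 2 * (s x).im * ‖φ x‖ ^ 2 := by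
      intro x
      rw [mul_pow, mul_pow, Real.sq_sqrt (hs0 x).le]
    have s1 : Summable fun x => (t * ‖ψ x‖ * (‖s x - m‖ / Real.sqrt (s x).im)) ^ 2 := by
      simp only [e1]
      exact hN
    have s2 : Summable fun x => t ^ 2 * (s x).im * ‖φ x‖ ^ 2 := by
      refine Summable.of_nonneg_of_le (fun x => ?_) (fun x => ?_) (sφ.mul_left (t ^ 2 * C))
      · have := hs0 x
        positivity
      · have := hle x
        gcongr
    have s3 : Summable fun x => (t * Real.sqrt (s x).im * ‖φ x‖) ^ 2 := by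
      simp only [e2]
      exact s2
    have s4 : Summable fun x => (z.im + t ^ 2 * (s x).im) * ‖φ x‖ ^ 2 := by
      refine ((sφ.mul_left z.im).add s2).congr fun x => ?_
      ring
    obtain ⟨k1, k2⟩ := cs_tsum s1 s3
    have h5 : ∑' x, t ^ 2 * (s x).im * ‖φ x‖ ^ 2 ≤ (φ o).im := by
      rw [← eφ]
      refine s2.tsum_le_tsum (fun x => ?_) s4
      have : 0 ≤ z.im * ‖φ x‖ ^ 2 := by positivity
      linarith
    have hN0 : 0 ≤ ∑' x, t ^ 2 * ‖ψ x‖ ^ 2 * (‖s x - m‖ ^ 2 / (s x).im) := by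
      refine tsum_nonneg fun x => ?_
      have := hs0 x
      positivity
    have hb : ‖φ o - ψ o‖ ^ 2 ≤
        (∑' x, t ^ 2 * ‖ψ x‖ ^ 2 * (‖s x - m‖ ^ 2 / (s x).im)) * (φ o).im := by
      have k1' : Summable fun x => ‖ψ x * ((t : ℂ) ^ 2 * s x - (t : ℂ) ^ 2 * m) * φ x‖ := by
        simp only [e0]
        exact k1
      calc ‖φ o - ψ o‖ ^ 2 ≤
          (∑' x, ‖ψ x * ((t : ℂ) ^ 2 * s x - (t : ℂ) ^ 2 * m) * φ x‖) ^ 2 := by
            rw [hdiff]
            exact pow_le_pow_left₀ (norm_nonneg _) (norm_tsum_le_tsum_norm k1') 2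
        _ ≤ _ := by
            simp only [e0]
            refine k2.trans ?_
            simp only [e1, e2]
            gcongr
    have hfin : ∑' x, (t ^ 2 * m.im * ‖ψ x‖ ^ 2 / (ψ o).im) * hu (s x) m =
        (∑' x, t ^ 2 * ‖ψ x‖ ^ 2 * (‖s x - m‖ ^ 2 / (s x).im)) / (ψ o).im := by
      rw [← tsum_div_const]
      refine tsum_congr fun x => ?_
      unfold hu
      have h1 := (hs0 x).ne'
      have h2 := hm.ne'
      have h3 := pψ.ne'
      field_simp
    rw [hfin]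
    unfold hu
    rw [div_le_div_iff₀ (mul_pos pφ pψ) pψ]
    calc ‖φ o - ψ o‖ ^ 2 * (ψ o).im ≤
        ((∑' x, t ^ 2 * ‖ψ x‖ ^ 2 * (‖s x - m‖ ^ 2 / (s x).im)) * (φ o).im) * (ψ o).im := by
          gcongr
      _ = _ := by ring

end Pool.Agent.H628.Z987
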